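import Mathlib
import Pool.Agent.H57.Cong

namespace Pool.Agent.Results.MP_34a732_nt.Fails

open Finset Pool.Agent.H57.Cong

/-- the first sum -/
def S1 (p : ℕ) : ℚ := ∑ k ∈ range p, bn (-1 / 3) k * bn (-1 / 6) k * (27 / 16) ^ k

/-- The case p = 1 mod 3 fails; e stands for x / y mod p. -/
theorem result : ¬ ∀ p : ℕ, p.Prime → 11 < p → jacobiSym p 11 = 1 → p % 3 = 1 → ∀ x y e : ℤ,
    4 * (p : ℤ) = x ^ 2 + 11 * y ^ 2 → (p : ℤ) ∣ e * y - x →
    Cong p 2 (S1 p) (-(jacobiSym (-11 + e) p : ℚ) * (jacobiSym x 11 : ℚ) * (x - p / x)) := by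
  intro h
  have := h 31 (by norm_num) (by norm_num) (by norm_num) (by norm_num) 5 3 12 (by norm_num)
    (by norm_num)
  rw [show jacobiSym (-11 + 12) 31 = 1 by norm_num, show jacobiSym 5 11 = 1 by norm_num] at this
  refine not_cong (by norm_num) ?_ this
  decide +kernel

end Pool.Agent.Results.MP_34a732_nt.Fails
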